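import Pool.Agent.Lib.MP_abd978_an.UN.Interfaces

/-!
# Project UNW, module COMP: the comparison principle

If `u > v` somewhere, the two equations are tested with `η Θ(u - v)`, where `Θ(t) = 0` for
`t ≤ ε`, `Θ(t) > 0` for `t > ε`, `Θ` is smooth and nondecreasing, and `η` is a cutoff function
which is `1` on the compact set outside of which `u ≤ v + ε`.
-/

set_option autoImplicit false

open MeasureTheory Metric Set Filter Topology ContDiff
open scoped Gradient RealInnerProductSpace NNReal ENNReal Manifold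

namespace Pool.Agent.Lib.MP_abd978_an.UN.H65

variable {n : ℕ}

/-- cutoff functions of compact sets -/
theorem exists_cutoff {K D : Set (E n)} (hK : IsCompact K) (hD : IsOpen D) (hKD : K ⊆ D) :
    ∃ η : E n → ℝ, Test D η ∧ (∀ x, η x ∈ Icc (0 : ℝ) 1) ∧ ∀ x ∈ K, η x = 1 := by
  obtain ⟨G, hG, hKG, hGD, hGc⟩ := exists_open_between_and_isCompact_closure hK hD hKD
  obtain ⟨f, hf0, hf1, hf⟩ := exists_contMDiffMap_zero_one_of_isClosed (n := (⊤ : ℕ∞))
    (𝓘(ℝ, E n)) (hG.isClosed_compl) hK.isClosed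
    (disjoint_left.2 fun x hx hxK => hx (hKG hxK))
  have hsup : tsupport f ⊆ closure G := by
    refine closure_mono fun x hx => ?_
    by_contra hcon
    exact hx (hf0 hcon)
  refine ⟨f, ⟨f.contMDiff.contDiff, ?_, hsup.trans hGD⟩, hf, fun x hx => hf1 hx⟩
  exact hGc.of_isClosed_subset (isClosed_tsupport _) hsup

/-- differences of Sobolev functions -/
theorem isSob_sub {μ : Measure (E n)} {p : ℝ} {D : Set (E n)} {u u' : E n → ℝ}
    {v v' : E n → E n} (hp : 1 < p) (hD : IsOpen D) (h : IsSob μ p D u v)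
    (h' : IsSob μ p D u' v') :
    IsSob μ p D (fun x => u x - u' x) (fun x => v x - v' x) := by
  obtain ⟨h1, h2, ψ, h3, h4, h5⟩ := h
  obtain ⟨h1', h2', ψ', h3', h4', h5'⟩ := h'
  have hp1 := one_le_ofReal hp
  have hdiff : ∀ (φ : E n → ℝ), ContDiffOn ℝ ∞ φ D → ∀ x ∈ D, DifferentiableAt ℝ φ x :=
    fun φ hφ x hx => (hφ.contDiffAt (hD.mem_nhds hx)).differentiableAt (by simp)
  have hcg : ∀ (φ : E n → ℝ), ContDiffOn ℝ ∞ φ D →
      AEStronglyMeasurable (fun x => ∇ φ x) (μ.restrict D) := by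
    intro φ hφ
    refine ContinuousOn.aestronglyMeasurable ?_ hD.measurableSet
    have hc := hφ.continuousOn_fderiv_of_isOpen hD (by simp)
    exact (InnerProductSpace.toDual ℝ (E n)).symm.continuous.comp_continuousOn hc
  refine ⟨h1.sub h1', h2.sub h2', fun i x => ψ i x - ψ' i x, fun i => (h3 i).sub (h3' i),
    ?_, ?_⟩
  · have h6 := h4.add h4'
    rw [add_zero] at h6
    refine tendsto_of_tendsto_of_tendsto_of_le_of_le tendsto_const_nhds h6 (fun _ => bot_le)
      fun i => ?_
    have h7 := eLpNorm_sub_le (μ := μ.restrict D) (p := ENNReal.ofReal p)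
      (f := fun x => ψ i x - u x)
      (g := fun x => ψ' i x - u' x)
      (((h3 i).continuousOn.aestronglyMeasurable hD.measurableSet).sub h1.1)
      (((h3' i).continuousOn.aestronglyMeasurable hD.measurableSet).sub h1'.1) hp1
    refine le_trans (le_of_eq ?_) h7
    congr 1
    funext x
    show ψ i x - ψ' i x - (u x - u' x) = (ψ i x - u x) - (ψ' i x - u' x)
    ring
  · have h6 := h5.add h5'
    rw [add_zero] at h6
    refine tendsto_of_tendsto_of_tendsto_of_le_of_le tendsto_const_nhds h6 (fun _ => bot_le)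
      fun i => ?_
    have h7 := eLpNorm_sub_le (μ := μ.restrict D) (p := ENNReal.ofReal p)
      (f := fun x => ∇ (ψ i) x - v x)
      (g := fun x => ∇ (ψ' i) x - v' x)
      ((hcg _ (h3 i)).sub h2.1) ((hcg _ (h3' i)).sub h2'.1) hp1
    refine le_trans (le_of_eq ?_) h7
    refine eLpNorm_congr_ae ((ae_restrict_iff' hD.measurableSet).2 (Eventually.of_forall
      fun x hx => ?_))
    have h8 : ∇ (fun y => ψ i y - ψ' i y) x = ∇ (ψ i) x - ∇ (ψ' i) x :=
      grad_sub (hdiff _ (h3 i) x hx) (hdiff _ (h3' i) x hx)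
    show ∇ (fun y => ψ i y - ψ' i y) x - (v x - v' x) = (∇ (ψ i) x - v x) - (∇ (ψ' i) x - v' x)
    rw [h8]
    abel

/-- Sobolev functions may be changed outside the set -/
theorem isSob_congr {μ : Measure (E n)} {p : ℝ} {D : Set (E n)} {u u' : E n → ℝ}
    {v : E n → E n} (hD : IsOpen D) (h : IsSob μ p D u v) (he : ∀ x ∈ D, u' x = u x) :
    IsSob μ p D u' v := by
  obtain ⟨h1, h2, ψ, h3, h4, h5⟩ := h
  have hae : u =ᵐ[μ.restrict D] u' :=
    (ae_restrict_iff' hD.measurableSet).2 (Eventually.of_forall fun x hx => (he x hx).symm)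
  refine ⟨(memLp_congr_ae hae).1 h1, h2, ψ, h3, ?_, h5⟩
  refine h4.congr fun i => eLpNorm_congr_ae ?_
  filter_upwards [hae] with x hx
  rw [hx]

/-- COMP -/
theorem comp (hC : ChainStatement) (hI : IntgStatement) (hP : PairStatement)
    (hS : Sob1Statement) : CompStatement := by
  intro n p a α β U u v _ hop hU hu hv hK x₀ hx₀
  by_contra hcon
  push Not at hcon
  obtain ⟨hu1, V, hV, hVe⟩ := hu
  obtain ⟨hv1, W, hW, hWe⟩ := hv
  have hp := hop.hp
  set ε : ℝ := (u x₀ - v x₀) / 2 with hε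
  have hε0 : 0 < ε := by rw [hε]; linarith
  obtain ⟨K, hKc, hKU, hKε⟩ := hK ε hε0
  have hx₀K : x₀ ∈ K := by
    by_contra hn
    have := hKε x₀ hx₀ hn
    linarith
  obtain ⟨D, hD, hKD, hDU, hDc⟩ := exists_open_between_and_isCompact_closure hKc hU hKU
  obtain ⟨η, hη, hη01, hη1⟩ := exists_cutoff hKc hD hKD
  -- the bounded difference
  obtain ⟨M₀, hM₀⟩ := hDc.exists_bound_of_continuousOn ((hu1.sub hv1).mono hDU)
  set M : ℝ := max M₀ 0 with hM
  classical
  set w : E n → ℝ := D.indicator fun x => u x - v x with hw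
  have hwD : ∀ x ∈ D, w x = u x - v x := fun x hx => by rw [hw, indicator_of_mem hx]
  have hwM : ∀ x, w x ∈ Icc (-M) M := by
    intro x
    by_cases hx : x ∈ D
    · rw [hwD x hx]
      have h1 := hM₀ x (subset_closure hx)
      have h2 : |u x - v x| ≤ M := le_trans h1 (le_max_left _ _)
      exact abs_le.1 h2
    · rw [hw, indicator_of_notMem hx]
      have : 0 ≤ M := le_max_right _ _
      exact ⟨by linarith, this⟩
  have hVD := hV D hD hDc hDU
  have hWD := hW D hD hDc hDU
  have hwS : IsSob volume p D w (fun x => V x - W x) :=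
    isSob_congr hD (isSob_sub hp hD hVD hWD) hwD
  -- the function Θ
  set Θ : ℝ → ℝ := fun t => expNegInvGlue (t - ε) with hΘ
  have hΘs : ContDiff ℝ ∞ Θ := by
    have h1 : ContDiff ℝ ∞ expNegInvGlue := expNegInvGlue.contDiff
    exact h1.comp (contDiff_id.sub contDiff_const)
  have hΘ0 : ∀ t, t ≤ ε → Θ t = 0 := fun t ht =>
    expNegInvGlue.zero_of_nonpos (by linarith)
  have hΘpos : ∀ t, ε < t → 0 < Θ t := fun t ht =>
    expNegInvGlue.pos_of_pos (by linarith)
  have hΘmono : Monotone Θ := fun s t hst => expNegInvGlue.monotone (by linarith)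
  have hΘd : ∀ t, 0 ≤ deriv Θ t := fun t => hΘmono.deriv_nonneg
  -- the test function
  have hH := hC n volume p D w _ (-M) M Θ η hp hop.lf hD hwS hwM
    ⟨univ, isOpen_univ, subset_univ _, hΘs.contDiffOn⟩ hη
  set Ψ : E n → ℝ := fun x => η x * Θ (w x) with hΨ
  set G : E n → E n := fun x => Θ (w x) • ∇ η x + (η x * deriv Θ (w x)) • (V x - W x) with hG
  have hGout : ∀ x, x ∉ D → G x = 0 := by
    intro x hx
    have h1 : x ∉ tsupport η := fun h => hx (hη.2.2 h)
    rw [hG]
    show Θ (w x) • ∇ η x + (η x * deriv Θ (w x)) • (V x - W x) = 0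
    rw [grad_eq_zero_of_notMem h1, image_eq_zero_of_notMem_tsupport h1]
    simp
  have hGD : ∀ x ∈ D, G x = (η x * deriv Θ (w x)) • (V x - W x) := by
    intro x hx
    have h1 : Θ (w x) • ∇ η x = 0 := by
      by_cases hxK : x ∈ K
      · have h2 : IsLocalMax η x := by
          refine Eventually.of_forall fun y => ?_
          rw [hη1 x hxK]
          exact (hη01 y).2
        rw [grad_eq, h2.fderiv_eq_zero, map_zero, smul_zero]
      · rw [hΘ0 (w x), zero_smul]
        rw [hwD x hx]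
        have := hKε x (hDU (subset_closure hx)) hxK
        linarith
    rw [hG]
    show Θ (w x) • ∇ η x + (η x * deriv Θ (w x)) • (V x - W x) = _
    rw [h1, zero_add]
  -- the two equations
  have hDU' : D ⊆ U := subset_closure.trans hDU
  have hInt : ∀ Z : E n → E n, MemLp Z (ENNReal.ofReal p) (volume.restrict D) →
      Eqn volume a U Z → Integrable (fun x => ⟪a x (Z x), G x⟫) (volume.restrict D) ∧
        ∫ x in D, ⟪a x (Z x), G x⟫ = 0 := by
    intro Z hZ hZe
    refine ⟨(hI n p volume (volume.restrict D) a α β Z G hop hZ (hH.2.1.restrict D)).1, ?_⟩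
    rw [← hP n p volume a α β D Z Ψ G hop hD hZ (hZe.mono hDU') hH]
    refine setIntegral_eq_integral_of_forall_compl_eq_zero fun x hx => ?_
    rw [hGout x hx, inner_zero_right]
  obtain ⟨hi1, he1⟩ := hInt V hVD.2.1 hVe
  obtain ⟨hi2, he2⟩ := hInt W hWD.2.1 hWe
  have hF : ∀ x ∈ D, ⟪a x (V x), G x⟫ - ⟪a x (W x), G x⟫ =
      (η x * deriv Θ (w x)) * ⟪a x (V x) - a x (W x), V x - W x⟫ := by
    intro x hx
    rw [← inner_sub_left, hGD x hx, inner_smul_right]
  have hηΘ : ∀ x, 0 ≤ η x * deriv Θ (w x) := fun x => mul_nonneg (hη01 x).1 (hΘd _)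
  have hmono : ∀ x, 0 ≤ ⟪a x (V x) - a x (W x), V x - W x⟫ := by
    intro x
    by_cases h : V x = W x
    · rw [h]; simp
    · exact (hop.mono x _ _ h).le
  have hnn : 0 ≤ᵐ[volume.restrict D] fun x => ⟪a x (V x), G x⟫ - ⟪a x (W x), G x⟫ := by
    refine (ae_restrict_iff' hD.measurableSet).2 (Eventually.of_forall fun x hx => ?_)
    show 0 ≤ ⟪a x (V x), G x⟫ - ⟪a x (W x), G x⟫
    rw [hF x hx]
    exact mul_nonneg (hηΘ x) (hmono x)
  have hzero : ∫ x in D, (⟪a x (V x), G x⟫ - ⟪a x (W x), G x⟫) = 0 := by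
    rw [integral_sub hi1 hi2, he1, he2, sub_zero]
  have hae := (integral_eq_zero_iff_of_nonneg_ae hnn (hi1.sub hi2)).1 hzero
  have hG0 : ∀ᵐ x : E n, G x = 0 := by
    have h1 := (ae_restrict_iff' hD.measurableSet).1 hae
    filter_upwards [h1] with x hx
    by_cases hxD : x ∈ D
    · have h2 := hx hxD
      simp only [Pi.zero_apply] at h2
      rw [hF x hxD] at h2
      rw [hGD x hxD]
      rcases mul_eq_zero.1 h2 with h3 | h3
      · rw [h3, zero_smul]
      · by_cases h : V x = W x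
        · rw [h, sub_self, smul_zero]
        · exact absurd h3 (hop.mono x _ _ h).ne'
    · exact hGout x hxD
  -- the Sobolev inequality
  obtain ⟨C, hC0, hSob⟩ := hS n p volume hop.toGeo
  obtain ⟨R, hR⟩ := (hDc.isBounded.subset subset_closure : Bornology.IsBounded D).subset_ball 0
  set R' : ℝ := max R 1 with hR'
  have hR'0 : 0 < R' := lt_of_lt_of_le one_pos (le_max_right _ _)
  have hDR : D ⊆ ball 0 R' := hR.trans (ball_subset_ball (le_max_left _ _))
  have h1 := hSob 0 R' Ψ G hR'0 (hH.mono hDR)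
  have h2 : ∫ x, ‖G x‖ ^ p = 0 := by
    rw [← integral_zero (E n) ℝ]
    refine integral_congr_ae ?_
    filter_upwards [hG0] with x hx
    rw [hx, norm_zero, Real.zero_rpow (by linarith)]
  rw [h2, mul_zero] at h1
  have hΨp : Integrable (fun x => |Ψ x| ^ p) := by
    have h3 := hH.1.integrable_norm_rpow (by
      have := one_le_ofReal hp
      intro h0
      rw [h0] at this
      simp at this) ENNReal.ofReal_ne_top
    rw [ENNReal.toReal_ofReal (by linarith)] at h3
    exact h3
  have h3 : ∫ x, |Ψ x| ^ p = 0 :=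
    le_antisymm h1 (integral_nonneg fun x => Real.rpow_nonneg (abs_nonneg _) _)
  have h4 := (integral_eq_zero_iff_of_nonneg (fun x => Real.rpow_nonneg (abs_nonneg _) _)
    hΨp).1 h3
  have h5 : ∀ᵐ x : E n, Ψ x = 0 := by
    filter_upwards [h4] with x hx
    have h6 : |Ψ x| ^ p = 0 := hx
    exact abs_eq_zero.1 ((Real.rpow_eq_zero (abs_nonneg _) (by linarith)).1 h6)
  -- the contradiction
  have hx₀D : x₀ ∈ D := hKD hx₀K
  have hcΨ : ContinuousAt Ψ x₀ := by
    have h6 : ContinuousAt w x₀ := by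
      have h7 : ContinuousAt (fun x => u x - v x) x₀ :=
        ((hu1.continuousAt (hU.mem_nhds hx₀)).sub (hv1.continuousAt (hU.mem_nhds hx₀)))
      refine h7.congr ?_
      filter_upwards [hD.mem_nhds hx₀D] with x hx
      exact (hwD x hx).symm
    exact hη.1.continuous.continuousAt.mul (hΘs.continuous.continuousAt.comp h6)
  have hΨ0 : 0 < Ψ x₀ := by
    show 0 < η x₀ * Θ (w x₀)
    rw [hη1 x₀ hx₀K, one_mul, hwD x₀ hx₀D]
    exact hΘpos _ (by rw [hε]; linarith)
  have h6 : {x | 0 < Ψ x} ∈ 𝓝 x₀ := hcΨ.eventually (lt_mem_nhds hΨ0)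
  have h7 : volume {x : E n | 0 < Ψ x} = 0 := by
    refine measure_mono_null ?_ (ae_iff.1 h5)
    intro x hx
    exact ne_of_gt hx
  exact (Measure.measure_pos_of_mem_nhds volume h6).ne' h7

end Pool.Agent.Lib.MP_abd978_an.UN.H65
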